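import Pool.Agent.H69.Ra2

namespace Pool.Agent.Results.MP_103809_gt.MinimalRa
open Pool.Agent.H69.Ra

/-- For the presentation 2-complex `X` of an arbitrary presentation `⟨S | r⟩`, every element of
`ra(X)` contains a minimal element of `ra(X)`. -/
theorem result (S R : Type) (r : R → List (S × Bool)) (P : Subgroup (Pi1 r)) (hP : InRa r P) :
    ∃ M : Subgroup (Pi1 r), InRa r M ∧ M ≤ P ∧ ∀ Q, InRa r Q → Q ≤ M → Q = M :=
  main r P hP

end Pool.Agent.Results.MP_103809_gt.MinimalRa
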